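import Mathlib
import Pool.Agent.H19.NilUniv

set_option autoImplicit false

namespace Pool.Agent.Results.MP_4977d9_al.NoUniversal

universe u v

/-- Over a countable field `F`, every algebraic algebra `U` of countable dimension misses some
algebraic algebra `B` of countable dimension among its homomorphic images. -/
theorem result (F : Type u) [Field F] [Countable F]
    (U : Type v) [NonUnitalRing U] [Module F U] [IsScalarTower F U U] [SMulCommClass F U U]
    (halg : ∀ a : U, FiniteDimensional F (NonUnitalAlgebra.adjoin F ({a} : Set U)))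
    (hdim : Module.rank F U ≤ Cardinal.aleph0) :
    ∃ (B : Type u) (_ : NonUnitalRing B) (_ : Module F B) (_ : IsScalarTower F B B)
      (_ : SMulCommClass F B B),
      (∀ b : B, FiniteDimensional F (NonUnitalAlgebra.adjoin F ({b} : Set B))) ∧
      Module.rank F B ≤ Cardinal.aleph0 ∧
      ∀ f : U →ₙₐ[F] B, ¬ Function.Surjective f := by
  obtain ⟨B, _, _, _, _, h4, h5, h6⟩ := Pool.Agent.H19.GS.no_universal F U halg hdim
  exact ⟨B, _, _, ‹_›, ‹_›,
    fun b => (h4 b).elim fun n hn => Pool.Agent.H19.GS.fd_of_nil b n hn, h5, h6⟩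

end Pool.Agent.Results.MP_4977d9_al.NoUniversal
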